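import Pool.Agent.Helper59.MB.Goals2

/-!
Packet MB-KE4 (helper4): the prediction errors are almost uncorrelated with the past.
-/

set_option autoImplicit false

open MeasureTheory Filter Topology Finset
open Pool.Agent.Helper59.MB

namespace Pool.Agent.Helper4.MB

theorem shift_sum (F : ℕ → ℝ) (c : ℝ) (hc : 0 ≤ c) (N l i : ℕ) (hi : i < l)
    (hF : ∀ m ∈ Icc 1 N, |F m| ≤ c) :
    |∑ n ∈ Icc 1 (N - l), F (n + i)| ≤ |∑ m ∈ Icc 1 N, F m| + l * c := by
  have h1 : ∑ n ∈ Icc 1 (N - l), F (n + i) =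
      ∑ m ∈ (Icc 1 (N - l)).map (addRightEmbedding i), F m := by
    rw [Finset.sum_map]
    rfl
  have hsub : (Icc 1 (N - l)).map (addRightEmbedding i) ⊆ Icc 1 N := by
    intro m hm
    rw [Finset.mem_map] at hm
    obtain ⟨n, hn, rfl⟩ := hm
    rw [Finset.mem_Icc] at hn ⊢
    show 1 ≤ n + i ∧ n + i ≤ N
    omega
  have h2 := Finset.sum_sdiff (f := F) hsub
  have h3 : |∑ m ∈ Icc 1 N \ (Icc 1 (N - l)).map (addRightEmbedding i), F m| ≤ l * c := by
    refine (Finset.abs_sum_le_sum_abs _ _).trans ?_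
    refine (Finset.sum_le_card_nsmul _ _ c fun m hm => hF m (Finset.mem_sdiff.mp hm).1).trans ?_
    rw [nsmul_eq_mul]
    refine mul_le_mul_of_nonneg_right ?_ hc
    have h4 : (Icc 1 N \ (Icc 1 (N - l)).map (addRightEmbedding i)).card ≤ l := by
      rw [Finset.card_sdiff_of_subset hsub, Finset.card_map, Nat.card_Icc, Nat.card_Icc]
      omega
    exact_mod_cast h4
  rw [h1]
  have h5 : ∑ m ∈ (Icc 1 (N - l)).map (addRightEmbedding i), F m = ∑ m ∈ Icc 1 N, F m -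
      ∑ m ∈ Icc 1 N \ (Icc 1 (N - l)).map (addRightEmbedding i), F m := by
    rw [← h2]
    ring
  rw [h5]
  refine (abs_sub _ _).trans ?_
  linarith

theorem telescope (x : ℕ → ℝ) (l : ℕ) :
    ∏ i ∈ range l, x i - 1 = ∑ i ∈ range l, (∏ j ∈ range i, x j) * (x i - 1) := by
  induction l with
  | zero => simp
  | succ l ih =>
    rw [Finset.sum_range_succ, ← ih, Finset.prod_range_succ]
    ring

theorem corr {u : ℕ → ℤ} {N r l : ℕ} {e e' : (ℕ → ℤ) → ℝ} {η : ℝ} (hη : 0 ≤ η)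
    (he' : Pred u N (r + l) e')
    (h : ∑ n ∈ Icc 1 N, (e' (past u n) - e (past u n)) ^ 2 ≤ η ^ 2 * N)
    (G : (ℕ → ℤ) → ℝ) (hG : Loc (r + l) G) (B : ℝ) (hB : 0 ≤ B)
    (hGB : ∀ n ∈ Icc 1 N, |G (past u n)| ≤ B) :
    |∑ n ∈ Icc 1 N, Dv u e n * G (past u n)| ≤ B * η * N := by
  have h1 : ∑ n ∈ Icc 1 N, Dv u e n * G (past u n) =
      ∑ n ∈ Icc 1 N, (e' (past u n) - e (past u n)) * G (past u n) := by
    have h2 := he'.orth G hG
    rw [← sub_eq_zero, ← Finset.sum_sub_distrib, ← h2]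
    refine Finset.sum_congr rfl fun n _ => ?_
    unfold Dv
    ring
  rw [h1]
  have hN : (0 : ℝ) ≤ N := Nat.cast_nonneg N
  refine abs_le_of_sq_le_sq ?_ (by positivity)
  refine (Finset.sum_mul_sq_le_sq_mul_sq _ _ _).trans ?_
  have h3 : ∑ n ∈ Icc 1 N, G (past u n) ^ 2 ≤ N * B ^ 2 := by
    refine (Finset.sum_le_card_nsmul _ _ (B ^ 2) fun n hn => ?_).trans ?_
    · rw [← sq_abs]
      exact pow_le_pow_left₀ (abs_nonneg _) (hGB n hn) 2
    · rw [nsmul_eq_mul, Nat.card_Icc]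
      simp
  have h4 : 0 ≤ ∑ n ∈ Icc 1 N, G (past u n) ^ 2 := Finset.sum_nonneg fun _ _ => sq_nonneg _
  calc (∑ n ∈ Icc 1 N, (e' (past u n) - e (past u n)) ^ 2) * ∑ n ∈ Icc 1 N, G (past u n) ^ 2
      ≤ (η ^ 2 * N) * (N * B ^ 2) := mul_le_mul h h3 h4 (by positivity)
    _ = (B * η * N) ^ 2 := by ring

/-- the function of the past -/
noncomputable def Gi (e : (ℕ → ℤ) → ℝ) (b : ℕ → ℝ) (i : ℕ) (p : ℕ → ℤ) : ℝ :=
  b i / 2 * ∏ i' ∈ range i, (1 + ((p (i - i' - 1) : ℝ) - e (fun j => p (i - i' + j))) * b i' / 2)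

theorem Gi_loc {r l : ℕ} {e : (ℕ → ℤ) → ℝ} (he : Loc r e) (b : ℕ → ℝ) (i : ℕ) (hi : i < l) :
    Loc (r + l) (Gi e b i) := by
  intro p p' hp
  unfold Gi
  congr 1
  refine Finset.prod_congr rfl fun i' hi' => ?_
  rw [Finset.mem_range] at hi'
  have h1 : p (i - i' - 1) = p' (i - i' - 1) := hp _ (by omega)
  have h2 : e (fun j => p (i - i' + j)) = e (fun j => p' (i - i' + j)) :=
    he _ _ fun j hj => hp _ (by omega)
  rw [h1, h2]

theorem fac_bound {d c : ℝ} (hd : |d| ≤ 2) (hc : |c| ≤ 1) : |1 + d * c / 2| ≤ 2 := by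
  have h1 : |d * c| ≤ 2 := by
    rw [abs_mul]
    nlinarith [abs_nonneg d, abs_nonneg c]
  rw [abs_le] at h1 ⊢
  constructor <;> linarith [h1.1, h1.2]

theorem past_abs {u : ℕ → ℤ} (hu : ∀ n, |u n| ≤ 1) (n i : ℕ) : |((past u n i : ℤ) : ℝ)| ≤ 1 := by
  have h1 : |past u n i| ≤ 1 := by
    unfold past
    split_ifs
    · exact hu _
    · simp
  exact_mod_cast h1

theorem Gi_bound {u : ℕ → ℤ} (hu : ∀ n, |u n| ≤ 1) {e : (ℕ → ℤ) → ℝ} (he : ∀ p, |e p| ≤ 1)
    {b : ℕ → ℝ} (hb : ∀ i, |b i| ≤ 1) (i m : ℕ) : |Gi e b i (past u m)| ≤ 2 ^ i / 2 := by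
  unfold Gi
  rw [abs_mul, Finset.abs_prod]
  have h1 : ∏ i' ∈ range i, |1 + (((past u m (i - i' - 1) : ℤ) : ℝ) -
      e (fun j => past u m (i - i' + j))) * b i' / 2| ≤ 2 ^ i := by
    have h0 : ∏ i' ∈ range i, |1 + (((past u m (i - i' - 1) : ℤ) : ℝ) -
        e (fun j => past u m (i - i' + j))) * b i' / 2| ≤ ∏ _i' ∈ range i, (2 : ℝ) := by
      refine Finset.prod_le_prod (fun i' _ => abs_nonneg _) fun i' _ => ?_
      refine fac_bound ?_ (hb i')
      have h2 := past_abs hu m (i - i' - 1)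
      have h3 := he (fun j => past u m (i - i' + j))
      have h4 := abs_sub ((past u m (i - i' - 1) : ℤ) : ℝ) (e (fun j => past u m (i - i' + j)))
      linarith
    rw [Finset.prod_const, Finset.card_range] at h0
    exact h0
  have h2 : |b i / 2| ≤ 1 / 2 := by
    rw [abs_div, abs_two]
    linarith [hb i]
  calc |b i / 2| * _ ≤ 1 / 2 * 2 ^ i :=
        mul_le_mul h2 h1 (Finset.prod_nonneg fun _ _ => abs_nonneg _) (by norm_num)
    _ = 2 ^ i / 2 := by ring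

theorem Gi_eq (u : ℕ → ℤ) (e : (ℕ → ℤ) → ℝ) (b : ℕ → ℝ) (i n : ℕ) (hn : 1 ≤ n) :
    Gi e b i (past u (n + i)) = b i / 2 *
      ∏ i' ∈ range i, (1 + Dv u e (n + i') * b i' / 2) := by
  unfold Gi
  congr 1
  refine Finset.prod_congr rfl fun i' hi' => ?_
  rw [Finset.mem_range] at hi'
  have h1 : past u (n + i) (i - i' - 1) = u (n + i') := by
    unfold past
    rw [if_pos (by omega)]
    congr 1
    omega
  have h2 : (fun j => past u (n + i) (i - i' + j)) = past u (n + i') := by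
    funext j
    unfold past
    by_cases hj : j < n + i'
    · rw [if_pos hj, if_pos (by omega)]
      congr 1
      omega
    · rw [if_neg hj, if_neg (by omega)]
  rw [h1, h2]
  rfl

theorem t_KE4 : S_KE4 := by
  intro u hu N r l e e' η hη he he' h b hb
  have hDabs : ∀ n, |Dv u e n| ≤ 2 := by
    intro n
    unfold Dv
    have h1 : |((u n : ℤ) : ℝ)| ≤ 1 := by exact_mod_cast hu n
    have h2 := he.le (past u n)
    have h3 := abs_sub ((u n : ℤ) : ℝ) (e (past u n))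
    linarith
  have h1 : ∀ n ∈ Icc 1 (N - l), (∏ i ∈ range l, (1 + Dv u e (n + i) * b i / 2) - 1) =
      ∑ i ∈ range l, Dv u e (n + i) * Gi e b i (past u (n + i)) := by
    intro n hn
    rw [Finset.mem_Icc] at hn
    rw [telescope]
    refine Finset.sum_congr rfl fun i _ => ?_
    rw [Gi_eq u e b i n hn.1]
    ring
  rw [Finset.sum_congr rfl h1, Finset.sum_comm]
  refine (Finset.abs_sum_le_sum_abs _ _).trans ?_
  have hN : (0 : ℝ) ≤ N := Nat.cast_nonneg N
  have h2 : ∀ i ∈ range l, |∑ n ∈ Icc 1 (N - l), Dv u e (n + i) * Gi e b i (past u (n + i))| ≤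
      2 ^ l * (η * N + l) := by
    intro i hi
    rw [Finset.mem_range] at hi
    have hpow : (2 : ℝ) ^ i ≤ 2 ^ l := pow_le_pow_right₀ (by norm_num) hi.le
    have h3 := shift_sum (fun m => Dv u e m * Gi e b i (past u m)) (2 ^ i) (by positivity) N l i hi
      (fun m _ => by
        rw [abs_mul]
        calc |Dv u e m| * |Gi e b i (past u m)| ≤ 2 * (2 ^ i / 2) :=
              mul_le_mul (hDabs m) (Gi_bound hu he.le hb i m) (abs_nonneg _) (by norm_num)
          _ = 2 ^ i := by ring)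
    have h4 := corr hη he' h (Gi e b i) (Gi_loc he.loc b i hi) (2 ^ i / 2) (by positivity)
      (fun n _ => Gi_bound hu he.le hb i n)
    have h5 : (2 : ℝ) ^ i / 2 * η * N ≤ 2 ^ l * (η * N) := by
      have h7 : 0 ≤ η * N := by positivity
      have h8 : (2 : ℝ) ^ i / 2 ≤ 2 ^ l := by
        have : (0 : ℝ) < 2 ^ i := by positivity
        linarith
      calc (2 : ℝ) ^ i / 2 * η * N = 2 ^ i / 2 * (η * N) := by ring
        _ ≤ 2 ^ l * (η * N) := mul_le_mul_of_nonneg_right h8 h7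
    have h6 : (l : ℝ) * 2 ^ i ≤ 2 ^ l * l := by
      rw [mul_comm]
      exact mul_le_mul_of_nonneg_right hpow (Nat.cast_nonneg l)
    calc _ ≤ _ := h3
      _ ≤ 2 ^ l * (η * N + l) := by
        rw [mul_add]
        linarith
  refine (Finset.sum_le_card_nsmul _ _ _ h2).trans ?_
  rw [Finset.card_range, nsmul_eq_mul, mul_assoc]

end Pool.Agent.Helper4.MB
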