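import Pool.Agent.Helper59.MB.Goals1

/-!
Packet MB-PSB (helper4): the limit of the approximations.
-/

set_option autoImplicit false

open MeasureTheory Filter Topology Finset
open Pool.Agent.Helper59.MB

namespace Pool.Agent.Helper4.MB

theorem ae_stab (hPSA : S_PSA) (s : ℕ → ℕ) (V : ℕ → Set (ℕ → ℝ)) (m : Measure A)
    [IsProbabilityMeasure m] (hPar : ∀ K, Par s V m K) :
    ∀ᵐ x ∂(BM m), ∀ n : ℤ, ∃ K : ℕ, ∀ k ≥ K,
      psi s V m (k + 1) x.1 x.2 n = psi s V m k x.1 x.2 n := by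
  obtain ⟨-, -, -, hD⟩ := hPSA s V m hPar
  have : IsFiniteMeasure haar2 := by
    unfold haar2
    infer_instance
  have : IsFiniteMeasure (BM m) := by
    unfold BM
    infer_instance
  rw [ae_all_iff]
  intro n
  have h1 : ∑' k, BM m {x | psi s V m (k + 1) x.1 x.2 n ≠ psi s V m k x.1 x.2 n} ≠ ⊤ := by
    have h2 : ∀ k, BM m {x | psi s V m (k + 1) x.1 x.2 n ≠ psi s V m k x.1 x.2 n} ≤
        ENNReal.ofReal ((1 / 2) ^ (k + 2)) := fun k => by
      rw [← ofReal_measureReal]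
      exact ENNReal.ofReal_le_ofReal (hD k n)
    refine ne_top_of_le_ne_top ?_ (ENNReal.tsum_le_tsum h2)
    have h3 : Summable fun k : ℕ => (1 / 2 : ℝ) ^ (k + 2) := by
      rw [summable_nat_add_iff 2]
      exact summable_geometric_two
    rw [← ENNReal.ofReal_tsum_of_nonneg (fun k => by positivity) h3]
    exact ENNReal.ofReal_ne_top
  filter_upwards [ae_eventually_notMem h1] with x hx
  obtain ⟨K, hK⟩ := eventually_atTop.mp hx
  exact ⟨K, fun k hk => not_not.mp (hK k hk)⟩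

theorem psi_const {s : ℕ → ℕ} {V : ℕ → Set (ℕ → ℝ)} {m : Measure A}
    [IsProbabilityMeasure m] {x : Bas} {n : ℤ} {K : ℕ}
    (h : ∀ k ≥ K, psi s V m (k + 1) x.1 x.2 n = psi s V m k x.1 x.2 n) (k : ℕ) (hk : K ≤ k) :
    psi s V m k x.1 x.2 n = psi s V m K x.1 x.2 n := by
  induction k, hk using Nat.le_induction with
  | base => rfl
  | succ k hk ih => rw [h k hk, ih]

theorem Psi_eq {s : ℕ → ℕ} {V : ℕ → Set (ℕ → ℝ)} {m : Measure A}
    [IsProbabilityMeasure m] {x : Bas} {n : ℤ} {K : ℕ}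
    (h : ∀ k ≥ K, psi s V m (k + 1) x.1 x.2 n = psi s V m k x.1 x.2 n) (k : ℕ) (hk : K ≤ k) :
    (Psi s V m x).1 n = psi s V m k x.1 x.2 n := by
  classical
  rw [psi_const h k hk]
  funext j
  show decide (∃ K, ∀ k ≥ K, psi s V m k x.1 x.2 n j = true) = psi s V m K x.1 x.2 n j
  by_cases hj : psi s V m K x.1 x.2 n j = true
  · rw [hj]
    refine decide_eq_true ⟨K, fun k hk => ?_⟩
    rw [psi_const h k hk, hj]
  · have h1 : ¬ ∃ K, ∀ k ≥ K, psi s V m k x.1 x.2 n j = true := by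
      rintro ⟨K', hK'⟩
      apply hj
      rw [← psi_const h (max K K') (le_max_left _ _)]
      exact hK' _ (le_max_right _ _)
    rw [decide_eq_false h1]
    exact (Bool.not_eq_true _ ▸ hj : psi s V m K x.1 x.2 n j = false).symm

theorem t_PSB (hLOP : S_LOP) (hPHS : S_PHS) (hINV : S_INV) (hPSA : S_PSA) : S_PSB := by
  intro s V m _ hPar
  have hae := ae_stab hPSA s V m hPar
  obtain ⟨hA, -, -, -⟩ := hPSA s V m hPar
  have hmono : StrictMono s := (hPar 0).mono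
  obtain ⟨hL, -, -⟩ := hLOP s V m hmono
  obtain ⟨hP1, hP2, hP3, -, -, -⟩ := hPHS
  filter_upwards [hae] with x hx
  choose Kn hKn using hx
  refine ⟨?_, fun n => ⟨Kn n, fun j hj => ?_⟩⟩
  · intro k n hn
    have hn' : ph (s (k + 1)) (x.2 + (n : ℤ_[2])) = 0 := hn
    set K : ℕ := max (k + 1) ((range (P s (k + 1))).sup fun i => Kn (n + (i : ℤ))) with hKdef
    have hkK : k + 1 ≤ K := le_max_left _ _
    have hKi : ∀ i < P s (k + 1), Kn (n + (i : ℤ)) ≤ K := fun i hi =>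
      (Finset.le_sup (f := fun i : ℕ => Kn (n + (i : ℤ))) (Finset.mem_range.mpr hi)).trans
        (le_max_right _ _)
    have hsK : s (k + 1) ≤ s K := hmono.monotone hkK
    have h0 : ph (s K) (x.2 + (n : ℤ_[2])) % 2 ^ (s (k + 1)) = 0 := by
      rw [hP3 _ _ _ hsK, hn']
    obtain ⟨q, hq⟩ := Nat.dvd_of_mod_eq_zero h0
    obtain ⟨r, hr⟩ : 2 ^ (s (k + 1)) ∣ 2 ^ (s K) := pow_dvd_pow 2 hsK
    have hlt := hP1 (s K) (x.2 + (n : ℤ_[2]))
    have hpos : 0 < 2 ^ (s (k + 1)) := by positivity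
    have hqr : q < r := by
      rw [hq, hr] at hlt
      exact Nat.lt_of_mul_lt_mul_left hlt
    have hq1 : P s (k + 1) * (q + 1) ≤ P s K := by
      show 2 ^ (s (k + 1)) * (q + 1) ≤ 2 ^ (s K)
      rw [hr]
      exact Nat.mul_le_mul_left _ hqr
    have hG := hINV s V m K (hPar K)
      (fromZ (n - (P s (k + 1) * q : ℕ)) x.1) k q (by omega) hq1
    refine (hL k _ _ _ _ fun a ha j _ => ?_).mpr hG
    show (Psi s V m x).1 (n + (a : ℤ)) j = _
    rw [Psi_eq (hKn (n + (a : ℤ))) K (hKi a ha)]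
    have hph : ph (s K) (x.2 + ((n + (a : ℤ) : ℤ) : ℤ_[2])) = P s (k + 1) * q + a := by
      have h1 := hP2 (s K) (x.2 + (n : ℤ_[2])) (a : ℤ)
      have h2 : x.2 + (n : ℤ_[2]) + ((a : ℤ) : ℤ_[2]) = x.2 + ((n + (a : ℤ) : ℤ) : ℤ_[2]) := by
        push_cast
        ring
      rw [h2, hq] at h1
      have h3 : (2 ^ (s (k + 1)) * q + a : ℕ) < 2 ^ (s K) := by
        have h4 : 2 ^ (s (k + 1)) * q + a < 2 ^ (s (k + 1)) * (q + 1) := by
          have : a < 2 ^ (s (k + 1)) := ha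
          rw [mul_add, mul_one]
          omega
        exact lt_of_lt_of_le h4 hq1
      have h5 : (((2 ^ (s (k + 1)) * q : ℕ) : ℤ) + (a : ℤ)) % 2 ^ (s K) =
          ((2 ^ (s (k + 1)) * q + a : ℕ) : ℤ) := by
        rw [← Nat.cast_add]
        exact Int.emod_eq_of_lt (by positivity) (by exact_mod_cast h3)
      rw [h5] at h1
      exact_mod_cast h1
    show Phi s V m K (fromZ (n + (a : ℤ) -
      (ph (s K) (x.2 + ((n + (a : ℤ) : ℤ) : ℤ_[2])) : ℤ)) x.1)
      (ph (s K) (x.2 + ((n + (a : ℤ) : ℤ) : ℤ_[2]))) j =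
      Phi s V m K (fromZ (n - (P s (k + 1) * q : ℕ)) x.1) (P s (k + 1) * q + a) j
    rw [hph]
    have h6 : n + (a : ℤ) - ((P s (k + 1) * q + a : ℕ) : ℤ) = n - (P s (k + 1) * q : ℕ) := by
      push_cast
      ring
    rw [h6]
  · rw [Psi_eq (hKn n) (Kn n) le_rfl]
    exact hA _ _ _ _ _ hj

end Pool.Agent.Helper4.MB
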