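import Pool.Agent.Helper25.MB.HAR
import Pool.Agent.Helper59.MB.Goals3

/-!
Packet MB-UEP (helper4): product of a uniquely ergodic system with the odometer.
-/

set_option autoImplicit false

open MeasureTheory Filter Topology Finset
open Pool.Agent.Helper59.MB
open Pool.Agent.Helper77.MB (ph_lt ph_add ph_mod ph_cont)
open Pool.Agent.Helper25.MB (ph_set haar2_prob haar2_add haar2_ph)

namespace Pool.Agent.Helper4.MB

/-- the classes -/
def Dsets : Set (Set ℤ_[2]) := {s | ∃ k r : ℕ, s = {t | ph k t = r}}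

theorem ph_eq_iff (k : ℕ) (t t' : ℤ_[2]) (h : ph k t' = ph k t) :
    ‖t' - t‖ ≤ ((2 : ℕ) : ℝ) ^ (-(k : ℤ)) := by
  have : NeZero (2 ^ k) := ⟨pow_ne_zero _ two_ne_zero⟩
  rw [PadicInt.norm_le_pow_iff_mem_span_pow, ← PadicInt.ker_toZModPow, RingHom.mem_ker, map_sub,
    sub_eq_zero]
  exact ZMod.val_injective _ h

theorem gen2 : MeasurableSpace.generateFrom Dsets = (inferInstance : MeasurableSpace ℤ_[2]) := by
  have hb : TopologicalSpace.IsTopologicalBasis Dsets := by
    refine TopologicalSpace.isTopologicalBasis_of_isOpen_of_nhds ?_ ?_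
    · rintro _ ⟨k, r, rfl⟩
      exact (isOpen_discrete {r}).preimage (ph_cont k)
    · intro t U ht hU
      obtain ⟨ε, hε, hball⟩ := Metric.isOpen_iff.mp hU t ht
      obtain ⟨k, hk⟩ : ∃ k : ℕ, (1 / 2 : ℝ) ^ k < ε :=
        exists_pow_lt_of_lt_one hε (by norm_num)
      refine ⟨{s | ph k s = ph k t}, ⟨k, ph k t, rfl⟩, rfl, fun s hs => hball ?_⟩
      rw [Metric.mem_ball, dist_eq_norm]
      refine (ph_eq_iff k t s hs).trans_lt ?_
      rw [zpow_neg, zpow_natCast]
      rw [one_div, inv_pow] at hk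
      exact_mod_cast hk
  exact hb.borel_eq_generateFrom.symm

theorem pi2 : IsPiSystem Dsets := by
  rintro _ ⟨k, r, rfl⟩ _ ⟨k', r', rfl⟩ ⟨t, h1, h2⟩
  have h1' : ph k t = r := h1
  have h2' : ph k' t = r' := h2
  rcases le_total k k' with h | h
  · refine ⟨k', r', ?_⟩
    ext s
    constructor
    · rintro ⟨-, hs⟩
      exact hs
    · intro hs
      have hs' : ph k' s = r' := hs
      refine ⟨?_, hs⟩
      show ph k s = r
      rw [← ph_mod k' k s h, hs', ← h2', ph_mod k' k t h, h1']
  · refine ⟨k, r, ?_⟩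
    ext s
    constructor
    · rintro ⟨hs, -⟩
      exact hs
    · intro hs
      have hs' : ph k s = r := hs
      refine ⟨hs, ?_⟩
      show ph k' s = r'
      rw [← ph_mod k k' s h, hs', ← h1', ph_mod k k' t h, h2']

theorem C00 : {t : ℤ_[2] | ph 0 t = 0} = Set.univ := by
  ext t
  have := ph_lt 0 t
  simp only [Set.mem_univ, iff_true]
  show ph 0 t = 0
  simpa using this

section

variable {Y : Type} [MeasurableSpace Y] {T : Y → Y}

theorem iter_eq (T : Y → Y) (n : ℕ) (y : Y) (t : ℤ_[2]) :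
    (fun z : Y × ℤ_[2] => (T z.1, z.2 + 1))^[n] (y, t) = (T^[n] y, t + (n : ℤ_[2])) := by
  induction n generalizing y t with
  | zero => simp
  | succ n ih =>
    rw [Function.iterate_succ_apply, ih, Function.iterate_succ_apply]
    refine Prod.ext rfl ?_
    show t + 1 + (n : ℤ_[2]) = t + ((n + 1 : ℕ) : ℤ_[2])
    push_cast
    ring

theorem ph_add_pow (k : ℕ) (t : ℤ_[2]) : ph k (t + ((2 ^ k : ℕ) : ℤ_[2])) = ph k t := by
  have h1 := ph_add k t ((2 ^ k : ℕ) : ℤ)
  have h2 := ph_lt k t
  have h3 : ((ph k t : ℤ) + ((2 ^ k : ℕ) : ℤ)) % 2 ^ k = (ph k t : ℤ) := by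
    push_cast
    rw [Int.add_emod_right]
    exact Int.emod_eq_of_lt (by positivity) (by exact_mod_cast h2)
  rw [h3] at h1
  have h4 : ((((2 ^ k : ℕ) : ℤ)) : ℤ_[2]) = ((2 ^ k : ℕ) : ℤ_[2]) := by push_cast; rfl
  rw [h4] at h1
  exact_mod_cast h1

theorem ph_add_one (k : ℕ) (t : ℤ_[2]) (r : ℕ) (hr : r + 1 < 2 ^ k) :
    ph k (t + 1) = r + 1 ↔ ph k t = r := by
  have h1 := ph_add k t 1
  rw [Int.cast_one] at h1
  have h2 : (ph k t : ℤ) < 2 ^ k := by exact_mod_cast ph_lt k t
  have h3 : (r : ℤ) + 1 < 2 ^ k := by exact_mod_cast hr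
  have h0 : (0 : ℤ) ≤ ph k t := Int.natCast_nonneg _
  constructor
  · intro h
    rw [h] at h1
    rcases (by omega : (ph k t : ℤ) + 1 < 2 ^ k ∨ (ph k t : ℤ) + 1 = 2 ^ k) with h4 | h4
    · rw [Int.emod_eq_of_lt (by omega) h4] at h1
      push_cast at h1
      omega
    · rw [h4, Int.emod_self] at h1
      push_cast at h1
      omega
  · intro h
    rw [h, Int.emod_eq_of_lt (by omega) h3] at h1
    exact_mod_cast h1

theorem slice (hT : Measurable T) {l : Measure (Y × ℤ_[2])} [IsProbabilityMeasure l]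
    (hl : MeasurePreserving (fun z : Y × ℤ_[2] => (T z.1, z.2 + 1)) l l) (k r : ℕ)
    (hr : r < 2 ^ k) : l (Set.univ ×ˢ {t | ph k t = r}) = (2 ^ k : ENNReal)⁻¹ := by
  have hc : ∀ q < 2 ^ k, l (Set.univ ×ˢ {t | ph k t = q}) =
      l (Set.univ ×ˢ {t | ph k t = 0}) := by
    intro q hq
    induction q with
    | zero => rfl
    | succ q ih =>
      rw [← ih (by omega)]
      rw [← hl.measure_preimage (MeasurableSet.univ.prod (ph_set k (q + 1))).nullMeasurableSet]
      congr 1
      ext ⟨y, t⟩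
      constructor
      · rintro ⟨-, h2⟩
        exact ⟨trivial, (ph_add_one k t q hq).mp h2⟩
      · rintro ⟨-, h2⟩
        exact ⟨trivial, (ph_add_one k t q hq).mpr h2⟩
  have hsum : ∑ q ∈ Finset.range (2 ^ k), l (Set.univ ×ˢ {t | ph k t = q}) = 1 := by
    rw [← measure_biUnion_finset]
    · have : (⋃ q ∈ Finset.range (2 ^ k), (Set.univ : Set Y) ×ˢ {t : ℤ_[2] | ph k t = q}) =
          Set.univ := by
        ext ⟨y, t⟩
        simp only [Set.mem_iUnion, Finset.mem_range, Set.mem_univ, iff_true]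
        exact ⟨ph k t, ph_lt k t, trivial, rfl⟩
      rw [this]
      exact measure_univ
    · intro a _ b _ hab
      rw [Function.onFun, Set.disjoint_left]
      rintro ⟨y, t⟩ ⟨-, h1⟩ ⟨-, h2⟩
      have h1' : ph k t = a := h1
      have h2' : ph k t = b := h2
      exact hab (h1'.symm.trans h2')
    · intro q _
      exact MeasurableSet.univ.prod (ph_set k q)
  rw [Finset.sum_congr rfl fun q hq => hc q (Finset.mem_range.1 hq), Finset.sum_const,
    Finset.card_range, nsmul_eq_mul] at hsum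
  rw [hc r hr]
  refine ENNReal.eq_inv_of_mul_eq_one_left ?_
  rw [mul_comm]
  rw [← hsum]
  push_cast
  rfl

end

theorem t_UEP : S_UEP := by
  intro Y _ T ν hUE herg
  obtain ⟨hν, hTν, huniq⟩ := hUE
  have hT : Measurable T := hTν.measurable
  have := haar2_prob
  have hmeas : Measurable (fun z : Y × ℤ_[2] => (T z.1, z.2 + 1)) :=
    (hT.comp measurable_fst).prodMk ((haar2_add 1).measurable.comp measurable_snd)
  refine ⟨inferInstance, hTν.prod (haar2_add 1), fun l hlp hl => ?_⟩
  -- the first marginal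
  have hfst : l.map Prod.fst = ν := by
    refine huniq _ (Measure.isProbabilityMeasure_map measurable_fst.aemeasurable) ⟨hT, ?_⟩
    rw [Measure.map_map hT measurable_fst]
    have h1 : T ∘ Prod.fst = Prod.fst ∘ (fun z : Y × ℤ_[2] => (T z.1, z.2 + 1)) := rfl
    rw [h1, ← Measure.map_map measurable_fst hmeas, hl.map_eq]
  -- the slices
  have hsl : ∀ (k r : ℕ), r < 2 ^ k → ∀ B : Set Y, MeasurableSet B →
      l (B ×ˢ {t | ph k t = r}) = ν B * haar2 {t | ph k t = r} := by
    intro k r hr B hB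
    have hC := ph_set k r
    let lk : Measure Y := (l.restrict (Set.univ ×ˢ {t | ph k t = r})).map Prod.fst
    have hlk : ∀ B : Set Y, MeasurableSet B → lk B = l (B ×ˢ {t | ph k t = r}) := by
      intro B hB
      show ((l.restrict (Set.univ ×ˢ {t | ph k t = r})).map Prod.fst) B = _
      rw [Measure.map_apply measurable_fst hB, Measure.restrict_apply (measurable_fst hB)]
      congr 1
      ext ⟨y, t⟩
      constructor
      · rintro ⟨h1, -, h2⟩
        exact ⟨h1, h2⟩
      · rintro ⟨h1, h2⟩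
        exact ⟨h1, trivial, h2⟩
    have hfin : IsFiniteMeasure lk := by
      show IsFiniteMeasure ((l.restrict (Set.univ ×ˢ {t | ph k t = r})).map Prod.fst)
      infer_instance
    have hpres : MeasurePreserving (T^[2 ^ k]) lk lk := by
      refine ⟨hT.iterate _, ?_⟩
      ext B hB
      rw [Measure.map_apply (hT.iterate _) hB, hlk B hB, hlk _ (hT.iterate _ hB),
        ← (hl.iterate (2 ^ k)).measure_preimage (hB.prod hC).nullMeasurableSet]
      congr 1
      ext ⟨y, t⟩
      rw [Set.mem_preimage, iter_eq]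
      constructor
      · rintro ⟨h1, h2⟩
        exact ⟨h1, (ph_add_pow k t).trans h2⟩
      · rintro ⟨h1, h2⟩
        exact ⟨h1, (ph_add_pow k t).symm.trans h2⟩
    have hac : lk ≪ ν := by
      refine Measure.AbsolutelyContinuous.mk fun B hB h0 => ?_
      rw [hlk B hB]
      refine measure_mono_null (t := Prod.fst ⁻¹' B) (fun z hz => hz.1) ?_
      rw [← Measure.map_apply measurable_fst hB, hfst, h0]
    obtain ⟨c, hc⟩ := (herg k).eq_smul_of_absolutelyContinuous hpres hac
    have hcv : c = (2 ^ k : ENNReal)⁻¹ := by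
      have h1 := hlk Set.univ MeasurableSet.univ
      rw [slice hT hl k r hr, hc, Measure.smul_apply, measure_univ, smul_eq_mul, mul_one] at h1
      exact h1
    rw [← hlk B hB, hc, Measure.smul_apply, smul_eq_mul, hcv, haar2_ph k r hr, mul_comm]
  symm
  refine Measure.prod_eq_generateFrom (C := {s | MeasurableSet s}) (D := Dsets)
    MeasurableSpace.generateFrom_measurableSet gen2 MeasurableSpace.isPiSystem_measurableSet pi2
    ⟨fun _ => Set.univ, fun _ => MeasurableSet.univ, fun _ => measure_lt_top _ _,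
      Set.iUnion_const _⟩
    ⟨fun _ => Set.univ, fun _ => ⟨0, 0, C00.symm⟩, fun _ => measure_lt_top _ _,
      Set.iUnion_const _⟩ ?_
  rintro B hB _ ⟨k, r, rfl⟩
  by_cases hr : r < 2 ^ k
  · exact hsl k r hr B hB
  · have h0 : {t : ℤ_[2] | ph k t = r} = ∅ := by
      ext t
      simp only [Set.mem_empty_iff_false, iff_false]
      intro h
      have h' : ph k t = r := h
      exact hr (h' ▸ ph_lt k t)
    rw [h0, Set.prod_empty, measure_empty, measure_empty, mul_zero]

end Pool.Agent.Helper4.MB
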